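import Mathlib.Combinatorics.Hindman
import Mathlib.Data.Nat.Log
import Mathlib.Order.Filter.Ultrafilter.Basic
import Mathlib.Algebra.BigOperators.Group.Finset.Basic
import Mathlib.Algebra.Order.BigOperators.Group.Finset
import Mathlib.Tactic.Ring
import Mathlib.Tactic.Linarith
import Mathlib.Data.Nat.Digits.Defs
import Mathlib.Data.Set.Card

/-!
# Reading sparse sums of powers of `b` with bounded memory: the limit objects
-/

namespace Pool.Agent.Y309.SP

open Filter Finset

/-! ### An idempotent ultrafilter -/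

section ultra

attribute [local instance] Ultrafilter.semigroup Ultrafilter.addSemigroup

theorem exists_U : ∃ U : Ultrafilter ℕ,
    (∀ p : ℕ → Prop, (∀ᶠ m in (U : Filter ℕ), p m) ↔
      ∀ᶠ m in (U : Filter ℕ), ∀ᶠ n in (U : Filter ℕ), p (m + n)) ∧
    ∀ K, ∀ᶠ m in (U : Filter ℕ), K < m := by
  obtain ⟨U, hU, hle⟩ := Hindman.exists_idempotent_ultrafilter_le_FS (Stream'.const (1 : ℕ))
  have hid : ∀ p : ℕ → Prop, (∀ᶠ m in (U : Filter ℕ), p m) ↔
      ∀ᶠ m in (U : Filter ℕ), ∀ᶠ n in (U : Filter ℕ), p (m + n) := by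
    intro p
    have := Ultrafilter.eventually_add U U p
    rw [hU] at this
    exact this
  have hpos : ∀ᶠ m in (U : Filter ℕ), 0 < m := by
    filter_upwards [hle] with m hm
    have key : ∀ (a : Stream' ℕ) (m : ℕ), Hindman.FS a m → a = Stream'.const 1 → 0 < m := by
      intro a m h
      induction h with
      | head' a =>
        intro h; subst h
        exact Nat.one_pos
      | tail' a m h ih =>
        intro h; subst h
        exact ih (Stream'.tail_const 1)
      | cons' a m h ih =>
        intro h; subst h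
        have := ih (Stream'.tail_const 1)
        exact Nat.add_pos_right _ this
    exact key _ m hm rfl
  refine ⟨U, hid, ?_⟩
  intro K
  induction K with
  | zero => exact hpos
  | succ K ih =>
    rw [hid]
    filter_upwards [ih] with m hm
    filter_upwards [hpos] with n hn
    omega

end ultra

/-! ### Limits of functions with finitely many values -/

section lim

variable {X : Type*} [Finite X] (U : Ultrafilter ℕ)

theorem exists_lim (f : ℕ → X) : ∃ x, ∀ᶠ n in (U : Filter ℕ), f n = x := by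
  have h : ∀ᶠ n in (U : Filter ℕ), ∃ x, f n = x := Eventually.of_forall fun n => ⟨_, rfl⟩
  exact (Ultrafilter.eventually_exists_iff).1 h

noncomputable def lim (f : ℕ → X) : X := (exists_lim U f).choose

theorem lim_spec (f : ℕ → X) : ∀ᶠ n in (U : Filter ℕ), f n = lim U f :=
  (exists_lim U f).choose_spec

end lim

/-! ### Reading digits -/

section reader

variable {Q : Type*}

/-- The state transformation of a reading of the `v` lowest digits of `N`, at the positions
`a, …, a+v-1`. -/
def rd (b : ℕ) (s : ℕ → Q → ℕ → Q) (a : ℕ) : ℕ → ℕ → Q → Q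
  | 0, _, q => q
  | v + 1, N, q => s (a + v) (rd b s a v N q) (N / b ^ v % b)

structure Reader (b : ℕ) (C : ℕ → ℕ → ℕ → Q → Q) : Prop where
  add : ∀ a d v N q, C a (d + v) N q = C (a + d) v (N / b ^ d) (C a d N q)
  mod : ∀ a v d X Y q, v ≤ d → C a v (X + b ^ d * Y) q = C a v X q

theorem reader_rd {b : ℕ} (hb : 0 < b) (s : ℕ → Q → ℕ → Q) : Reader b (rd b s) where
  add a d v N q := by
    induction v with
    | zero => rfl
    | succ v ih =>
      change s (a + (d + v)) (rd b s a (d + v) N q) (N / b ^ (d + v) % b) =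
        s (a + d + v) (rd b s (a + d) v (N / b ^ d) (rd b s a d N q)) (N / b ^ d / b ^ v % b)
      rw [ih, Nat.div_div_eq_div_mul, ← pow_add, add_assoc]
  mod a v d X Y q := by
    induction v with
    | zero => intro _; rfl
    | succ v ih =>
      intro h
      change s (a + v) (rd b s a v (X + b ^ d * Y) q) ((X + b ^ d * Y) / b ^ v % b) =
        s (a + v) (rd b s a v X q) (X / b ^ v % b)
      rw [ih (by omega)]
      congr 1
      obtain ⟨e, rfl⟩ : ∃ e, d = v + (e + 1) := ⟨d - v - 1, by omega⟩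
      rw [pow_add, mul_assoc, Nat.add_mul_div_left _ _ (pow_pos hb v), pow_succ, mul_assoc,
        mul_left_comm, Nat.add_mul_mod_self_left]

variable [Finite Q] (U : Ultrafilter ℕ)

/-- The limit reader. -/
noncomputable def limR (C : ℕ → ℕ → ℕ → Q → Q) (a v N : ℕ) : Q → Q :=
  lim U (fun n => C (n + a) v N)

theorem limR_spec (C : ℕ → ℕ → ℕ → Q → Q) (a v N : ℕ) :
    ∀ᶠ n in (U : Filter ℕ), C (n + a) v N = limR U C a v N :=
  lim_spec U (fun n => C (n + a) v N)

theorem reader_limR {b : ℕ} {C : ℕ → ℕ → ℕ → Q → Q} (hC : Reader b C) :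
    Reader b (limR U C) where
  add a d v N q := by
    obtain ⟨n, h1, h2, h3⟩ := ((limR_spec U C a (d + v) N).and
      ((limR_spec U C (a + d) v (N / b ^ d)).and (limR_spec U C a d N))).exists
    rw [← h1, ← h2, ← h3, hC.add, add_assoc]
  mod a v d X Y q h := by
    obtain ⟨n, h1, h2⟩ := ((limR_spec U C a v (X + b ^ d * Y)).and (limR_spec U C a v X)).exists
    rw [← h1, ← h2, hC.mod _ _ _ _ _ _ h]

theorem limR_shift (hid : ∀ p : ℕ → Prop, (∀ᶠ m in (U : Filter ℕ), p m) ↔
      ∀ᶠ m in (U : Filter ℕ), ∀ᶠ n in (U : Filter ℕ), p (m + n))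
    (C : ℕ → ℕ → ℕ → Q → Q) (a v N : ℕ) :
    ∀ᶠ m in (U : Filter ℕ), limR U C (m + a) v N = limR U C a v N := by
  have h := (hid _).1 (limR_spec U C a v N)
  filter_upwards [h] with m hm
  obtain ⟨n, h1, h2⟩ := (hm.and (limR_spec U C (m + a) v N)).exists
  rw [← h1, ← h2]
  congr 1
  omega

/-- The transformation of a long block of zeros ending at a generic position absorbs the limit
of the blocks of zeros. -/
theorem lim_absorb (hid : ∀ p : ℕ → Prop, (∀ᶠ m in (U : Filter ℕ), p m) ↔
      ∀ᶠ m in (U : Filter ℕ), ∀ᶠ n in (U : Filter ℕ), p (m + n))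
    (hinf : ∀ K, ∀ᶠ m in (U : Filter ℕ), K < m) {b : ℕ}
    {C : ℕ → ℕ → ℕ → Q → Q} (hC : Reader b C) (R : ℕ → Q → Q)
    (hR : ∀ v, ∀ᶠ n in (U : Filter ℕ), C n v 0 = R v) (a : ℕ) (q : Q) :
    lim U R (lim U (fun v => C a (v - a) 0) q) = lim U (fun v => C a (v - a) 0) q := by
  set g := lim U (fun v => C a (v - a) 0) with hg
  have h1 : ∀ᶠ v in (U : Filter ℕ), C a (v - a) 0 = g := lim_spec U _
  have h2 := (hid _).1 h1
  have h3 : ∀ᶠ v in (U : Filter ℕ), R v = lim U R := lim_spec U _
  obtain ⟨v1, h2', h3'⟩ := (h2.and h3).exists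
  obtain ⟨v2, e1, e2, e3, e4⟩ := (h2'.and (h1.and ((hR v1).and (hinf a)))).exists
  have e5 := hC.add a (v2 - a) v1 0 q
  rw [show v2 - a + v1 = v1 + v2 - a by omega, e1, e2, Nat.zero_div,
    show a + (v2 - a) = v2 by omega, e3, h3'] at e5
  exact e5.symm

end reader

end Pool.Agent.Y309.SP
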