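import Pool.Agent.Y309.SP.A

/-!
# A generic sparse sequence of positions
-/

namespace Pool.Agent.Y309.SP

open Filter Finset

variable {Q : Type*}

/-- The position attached to a finite set of indices. -/
def pos (p : ℕ → ℕ) (V : Finset ℕ) : ℕ := ∑ i ∈ V, p i

structure Sys (b : ℕ) (C CI : ℕ → ℕ → ℕ → Q → Q) (p : ℕ → ℕ) (h hI E Z : Q → Q) : Prop where
  rC : Reader b C
  rI : Reader b CI
  big : ∀ n V, V ⊆ range n → pos p V < p n
  loc : ∀ n V, V ⊆ range n → ∀ Y, Y < b ^ (pos p V + 1) →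
    C (p n) (pos p V + 1) Y = CI 0 (pos p V + 1) Y
  locI : ∀ n V, V ⊆ range n → ∀ Y, Y < b ^ (pos p V + 1) →
    CI (p n) (pos p V + 1) Y = CI 0 (pos p V + 1) Y
  gap : ∀ n V, V ⊆ range n → V.Nonempty → C (pos p V + 1) (p n - (pos p V + 1)) 0 = h
  gapI : ∀ n V, V ⊆ range n → V.Nonempty → CI (pos p V + 1) (p n - (pos p V + 1)) 0 = hI
  ini : ∀ n, C 0 (p n) 0 = E
  iniI : ∀ n, CI 0 (p n) 0 = Z
  Zh : ∀ q, Z (h q) = h q
  ZhI : ∀ q, Z (hI q) = hI q
  ZE : ∀ q, Z (E q) = E q
  ZZ : ∀ q, Z (Z q) = Z q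

theorem eventually_all_le {U : Filter ℕ} {P : ℕ → ℕ → Prop}
    (h : ∀ u, ∀ᶠ m in U, P u m) (K : ℕ) : ∀ᶠ m in U, ∀ u, u ≤ K → P u m := by
  have := (Set.finite_Iic K).eventually_all (l := U) (p := fun u m => P u m)
  exact this.2 fun u _ => h u

theorem exists_sys [Finite Q] {b : ℕ} (hb : 2 ≤ b) (C : ℕ → ℕ → ℕ → Q → Q) (hC : Reader b C) :
    ∃ CI p h hI E Z, Sys b C CI p h hI E Z := by
  obtain ⟨U, hid, hinf⟩ := exists_U
  set CI := limR U C with hCI
  have rI : Reader b CI := reader_limR U hC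
  let H : ℕ → Q → Q := fun u => lim U (fun v => C (u + 1) (v - (u + 1)) 0)
  let HI : ℕ → Q → Q := fun u => lim U (fun v => CI (u + 1) (v - (u + 1)) 0)
  let E : Q → Q := lim U (fun v => C 0 v 0)
  let Z : Q → Q := lim U (fun v => CI 0 v 0)
  have sH : ∀ u, ∀ᶠ v in (U : Filter ℕ), C (u + 1) (v - (u + 1)) 0 = H u := fun u => lim_spec U _
  have sHI : ∀ u, ∀ᶠ v in (U : Filter ℕ), CI (u + 1) (v - (u + 1)) 0 = HI u :=
    fun u => lim_spec U _
  have sE : ∀ᶠ v in (U : Filter ℕ), C 0 v 0 = E := lim_spec U _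
  have sZ : ∀ᶠ v in (U : Filter ℕ), CI 0 v 0 = Z := lim_spec U _
  have locC : ∀ v N, ∀ᶠ m in (U : Filter ℕ), C m v N = CI 0 v N := fun v N => by
    simpa using limR_spec U C 0 v N
  have locCI : ∀ v N, ∀ᶠ m in (U : Filter ℕ), CI m v N = CI 0 v N := fun v N => by
    simpa using limR_shift U hid C 0 v N
  have ZH : ∀ u q, Z (H u q) = H u q := fun u q =>
    lim_absorb U hid hinf hC (fun v => CI 0 v 0) (fun v => locC v 0) (u + 1) q
  have ZHI : ∀ u q, Z (HI u q) = HI u q := fun u q =>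
    lim_absorb U hid hinf rI (fun v => CI 0 v 0) (fun v => locCI v 0) (u + 1) q
  have ZE : ∀ q, Z (E q) = E q := fun q =>
    lim_absorb U hid hinf hC (fun v => CI 0 v 0) (fun v => locC v 0) 0 q
  have ZZ : ∀ q, Z (Z q) = Z q := fun q =>
    lim_absorb U hid hinf rI (fun v => CI 0 v 0) (fun v => locCI v 0) 0 q
  let T : ℕ → (Q → Q) × (Q → Q) := fun u => (H u, HI u)
  let TS : ℕ → (Q → Q) × (Q → Q) := fun a => lim U (fun n => T (n + a))
  have sT : ∀ a, ∀ᶠ m in (U : Filter ℕ), T (m + a) = TS a := fun a => lim_spec U _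
  have sTS : ∀ a, ∀ᶠ m in (U : Filter ℕ), TS (m + a) = TS a := fun a => by
    filter_upwards [(hid _).1 (sT a)] with m hm
    obtain ⟨n, h1, h2⟩ := (hm.and (sT (m + a))).exists
    rw [← h1, ← h2]
    congr 1
    omega
  -- the choice of the next position
  have nxt : ∀ B : ℕ, ∃ m, b ^ (B + 1) < m ∧
      (∀ v ≤ b ^ (B + 1), ∀ N ≤ b ^ (B + 1), C m v N = CI 0 v N) ∧
      (∀ v ≤ b ^ (B + 1), ∀ N ≤ b ^ (B + 1), CI m v N = CI 0 v N) ∧
      (∀ u ≤ b ^ (B + 1), C (u + 1) (m - (u + 1)) 0 = H u) ∧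
      (∀ u ≤ b ^ (B + 1), CI (u + 1) (m - (u + 1)) 0 = HI u) ∧
      C 0 m 0 = E ∧ CI 0 m 0 = Z ∧
      (∀ a ≤ b ^ (B + 1), T (m + a) = TS a) ∧ (∀ a ≤ b ^ (B + 1), TS (m + a) = TS a) := by
    intro B
    refine Eventually.exists (f := (U : Filter ℕ)) ?_
    refine (hinf _).and (?_ : ∀ᶠ m in (U : Filter ℕ), _)
    refine (eventually_all_le (fun v => eventually_all_le (fun N => locC v N) _) _).and ?_
    refine (eventually_all_le (fun v => eventually_all_le (fun N => locCI v N) _) _).and ?_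
    refine (eventually_all_le sH _).and ?_
    refine (eventually_all_le sHI _).and ?_
    exact sE.and (sZ.and ((eventually_all_le sT _).and (eventually_all_le sTS _)))
  choose nx n1 n2 n3 n4 n5 n6 n7 n8 n9 using nxt
  let Bs : ℕ → ℕ := fun n => Nat.rec 0 (fun _ B => B + nx B) n
  have Bs_succ : ∀ n, Bs (n + 1) = Bs n + nx (Bs n) := fun n => rfl
  let p : ℕ → ℕ := fun n => nx (Bs n)
  have hp : ∀ n, ∑ i ∈ range n, p i = Bs n := by
    intro n
    induction n with
    | zero => rfl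
    | succ n ih => rw [Finset.sum_range_succ, ih, Bs_succ]
  have hle : ∀ n V, V ⊆ range n → pos p V ≤ Bs n := by
    intro n V hV
    rw [← hp n]
    exact Finset.sum_le_sum_of_subset hV
  have hK : ∀ n V, V ⊆ range n → pos p V + 1 ≤ b ^ (Bs n + 1) := by
    intro n V hV
    have := hle n V hV
    exact (Nat.succ_le_succ this).trans (Nat.lt_pow_self (by omega)).le
  have hKK : ∀ n V, V ⊆ range n → b ^ (pos p V + 1) ≤ b ^ (Bs n + 1) := by
    intro n V hV
    exact Nat.pow_le_pow_right (by omega) (Nat.succ_le_succ (hle n V hV))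
  have hT : ∀ n V, V ⊆ range n → TS (pos p V) = TS 0 ∧ (V.Nonempty → T (pos p V) = TS 0) := by
    intro n
    induction n with
    | zero =>
      intro V hV
      have : V = ∅ := by simpa using hV
      subst this
      exact ⟨rfl, fun h => absurd h (by simp)⟩
    | succ n ih =>
      intro V hV
      by_cases hn : n ∈ V
      · have hsub : V.erase n ⊆ range n := by
          intro x hx
          have h1 := hV (Finset.mem_of_mem_erase hx)
          have h2 := Finset.ne_of_mem_erase hx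
          simp only [Finset.mem_range] at h1 ⊢
          omega
        have hpos : pos p V = p n + pos p (V.erase n) := by
          unfold pos
          rw [Finset.add_sum_erase _ _ hn]
        have ha : pos p (V.erase n) ≤ b ^ (Bs n + 1) := by
          have := hK n _ hsub
          omega
        rw [hpos]
        refine ⟨?_, fun _ => ?_⟩
        · exact (n9 (Bs n) _ ha).trans (ih _ hsub).1
        · exact (n8 (Bs n) _ ha).trans (ih _ hsub).1
      · have hsub : V ⊆ range n := by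
          intro x hx
          have h1 := hV hx
          have h2 : x ≠ n := fun h => hn (h ▸ hx)
          simp only [Finset.mem_range] at h1 ⊢
          omega
        exact ih V hsub
  refine ⟨CI, p, (TS 0).1, (TS 0).2, E, Z, ?_⟩
  obtain ⟨u, hu⟩ := (sT 0).exists
  refine ⟨hC, rI, ?_, ?_, ?_, ?_, ?_, fun n => n6 _, fun n => n7 _, ?_, ?_, ZE, ZZ⟩
  · intro n V hV
    have := hK n V hV
    have h2 := n1 (Bs n)
    change pos p V < nx (Bs n)
    omega
  · intro n V hV Y hY
    exact n2 (Bs n) _ (hK n V hV) _ (hY.le.trans (hKK n V hV))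
  · intro n V hV Y hY
    exact n3 (Bs n) _ (hK n V hV) _ (hY.le.trans (hKK n V hV))
  · intro n V hV hne
    have h1 := (hT n V hV).2 hne
    have h2 := n4 (Bs n) (pos p V) (by have := hK n V hV; omega)
    exact h2.trans (congrArg Prod.fst h1)
  · intro n V hV hne
    have h1 := (hT n V hV).2 hne
    have h2 := n5 (Bs n) (pos p V) (by have := hK n V hV; omega)
    exact h2.trans (congrArg Prod.snd h1)
  · intro q
    rw [← hu]
    exact ZH _ q
  · intro q
    rw [← hu]
    exact ZHI _ q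

end Pool.Agent.Y309.SP
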