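import Pool.Agent.Y309.SP.B
import Mathlib.Algebra.Order.BigOperators.Ring.Finset
import Mathlib.Data.Fintype.EquivFin
import Mathlib.Data.Fintype.Pigeonhole

/-!
# The two invariants of the numbers built from a generic sequence of positions
-/

namespace Pool.Agent.Y309.SP

open Filter Finset

variable {Q : Type*}

theorem pos_insert (p : ℕ → ℕ) {N : ℕ} {V : Finset ℕ} (h : V ⊆ range N) :
    pos p (insert N V) = p N + pos p V := by
  unfold pos
  rw [Finset.sum_insert]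
  intro hN
  have := h hN
  simp at this

theorem insert_sub {N : ℕ} {V : Finset ℕ} (h : V ⊆ range N) : insert N V ⊆ range (N + 1) := by
  intro x hx
  rcases Finset.mem_insert.1 hx with rfl | hx
  · simp
  · have := h hx
    simp only [Finset.mem_range] at this ⊢
    omega

theorem sub_mono {M N : ℕ} {V : Finset ℕ} (h : V ⊆ range M) (hMN : M ≤ N) : V ⊆ range N :=
  h.trans (Finset.range_mono hMN)

/-- Reading `b ^ p * Y`. -/
theorem Reader.shift {b : ℕ} (hb : 0 < b) {C : ℕ → ℕ → ℕ → Q → Q} (hC : Reader b C)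
    (p w Y : ℕ) (q : Q) : C 0 (p + w) (b ^ p * Y) q = C p w Y (C 0 p 0 q) := by
  rw [hC.add, Nat.mul_div_cancel_left _ (pow_pos hb p), zero_add]
  congr 1
  have := hC.mod 0 p p 0 Y q le_rfl
  rwa [zero_add] at this

/-- Reading `X + b ^ p * Y` with `X` short. -/
theorem Reader.comb {b : ℕ} (hb : 0 < b) {C : ℕ → ℕ → ℕ → Q → Q} (hC : Reader b C)
    {l p : ℕ} (hlp : l ≤ p) (w : ℕ) {X : ℕ} (hX : X < b ^ l) (Y : ℕ) (q : Q) :
    C 0 (p + w) (X + b ^ p * Y) q = C p w Y (C l (p - l) 0 (C 0 l X q)) := by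
  have hXp : X < b ^ p := hX.trans_le (Nat.pow_le_pow_right hb hlp)
  rw [hC.add, Nat.add_mul_div_left _ _ (pow_pos hb p), Nat.div_eq_of_lt hXp, zero_add, zero_add,
    hC.mod 0 p p X Y q le_rfl]
  congr 1
  have := hC.add 0 l (p - l) X q
  rw [show l + (p - l) = p by omega, Nat.div_eq_of_lt hX, zero_add] at this
  exact this

theorem size_shift {b p l Y : ℕ} (h1 : b ^ l ≤ Y) (h2 : Y < b ^ (l + 1)) (hb : 0 < b) :
    b ^ (p + l) ≤ b ^ p * Y ∧ b ^ p * Y < b ^ (p + l + 1) := by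
  constructor
  · rw [pow_add]
    exact Nat.mul_le_mul_left _ h1
  · rw [add_assoc, pow_add]
    exact Nat.mul_lt_mul_of_pos_left h2 (pow_pos hb p)

theorem size_comb {b p l X Y : ℕ} (hX : X < b ^ p) (h1 : b ^ l ≤ Y) (h2 : Y < b ^ (l + 1))
    (hb : 0 < b) :
    b ^ (p + l) ≤ X + b ^ p * Y ∧ X + b ^ p * Y < b ^ (p + l + 1) := by
  constructor
  · exact (size_shift h1 h2 hb).1.trans (Nat.le_add_left _ _)
  · have h3 : b ^ p * (Y + 1) ≤ b ^ p * b ^ (l + 1) := Nat.mul_le_mul_left _ h2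
    rw [add_assoc, pow_add]
    have : X + b ^ p * Y < b ^ p * (Y + 1) := by
      rw [mul_add, mul_one]; omega
    exact this.trans_le h3

section

variable (b : ℕ) (CI : ℕ → ℕ → ℕ → Q → Q) (p : ℕ → ℕ) (hI Z : Q → Q)

/-- The inner transformation of a top digit `1`. -/
def al (q : Q) : Q := CI 0 1 1 (hI q)

/-- The inner invariant. -/
def IGV (V : Finset ℕ) (X s : ℕ) : Prop :=
  b ^ pos p V ≤ X ∧ X < b ^ (pos p V + 1) ∧
    ∀ q, CI 0 (pos p V + 1) X (Z q) = (al CI hI)^[s] (CI 0 1 1 (Z q))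

def IG (M X s : ℕ) : Prop := ∃ V, V ⊆ range M ∧ IGV b CI p hI Z V X s

def IN (M X s : ℕ) : Prop := ∃ V, V ⊆ range M ∧ V.Nonempty ∧ IGV b CI p hI Z V X s

variable {b CI p hI Z}

theorem IN.ig {M X s : ℕ} (h : IN b CI p hI Z M X s) : IG b CI p hI Z M X s := by
  obtain ⟨V, h1, _, h2⟩ := h
  exact ⟨V, h1, h2⟩

variable {C : ℕ → ℕ → ℕ → Q → Q} {h E : Q → Q} (S : Sys b C CI p h hI E Z) (hb : 2 ≤ b)

include S hb

theorem IGV.first {V : Finset ℕ} {N Y s : ℕ} (hV : V ⊆ range N) (hY : IGV b CI p hI Z V Y s) :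
    IGV b CI p hI Z (insert N V) (b ^ p N * Y) s := by
  obtain ⟨h1, h2, h3⟩ := hY
  have hb0 : 0 < b := by omega
  unfold IGV
  rw [pos_insert p hV]
  refine ⟨(size_shift h1 h2 hb0).1, (size_shift h1 h2 hb0).2, fun q => ?_⟩
  rw [add_assoc, S.rI.shift hb0, S.iniI, S.ZZ, S.locI N V hV Y h2, h3]

theorem IGV.add {V V' : Finset ℕ} {N X Y s s' : ℕ} (hV : V ⊆ range N) (hne : V.Nonempty)
    (hX : IGV b CI p hI Z V X s) (hV' : V' ⊆ range N) (hY : IGV b CI p hI Z V' Y s') :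
    IGV b CI p hI Z (insert N V') (X + b ^ p N * Y) (s + s' + 1) := by
  obtain ⟨h1, h2, h3⟩ := hY
  obtain ⟨g1, g2, g3⟩ := hX
  have hb0 : 0 < b := by omega
  have hlp : pos p V + 1 ≤ p N := S.big N V hV
  have hXp : X < b ^ p N := g2.trans_le (Nat.pow_le_pow_right hb0 hlp)
  unfold IGV
  rw [pos_insert p hV']
  refine ⟨(size_comb hXp h1 h2 hb0).1, (size_comb hXp h1 h2 hb0).2, fun q => ?_⟩
  rw [add_assoc, S.rI.comb hb0 hlp _ g2, S.gapI N V hV hne, g3, S.locI N V' hV' Y h2,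
    ← S.ZhI, h3, S.ZhI]
  have e : s + s' + 1 = s' + (1 + s) := by ring
  rw [e, Function.iterate_add_apply, Function.iterate_add_apply]
  rfl

end

/-! ### The outer invariant -/

theorem exists_D [Finite Q] : ∃ D, 1 ≤ D ∧ ∀ (f : Q → Q) (s : ℕ), D ∣ s + 1 → f^[s] = f^[D - 1] := by
  have h1 : ∀ f : Q → Q, ∃ m l, 1 ≤ l ∧ ∀ n, m ≤ n → f^[n + l] = f^[n] := by
    intro f
    obtain ⟨i, j, hij, he⟩ := Finite.exists_ne_map_eq_of_infinite (fun n : ℕ => f^[n])
    wlog hlt : i < j generalizing i j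
    · exact this j i hij.symm he.symm (by omega)
    refine ⟨i, j - i, by omega, fun n hn => ?_⟩
    have e1 : n + (j - i) = (n - i) + j := by omega
    have e2 : n = (n - i) + i := by omega
    rw [e1, Function.iterate_add, ← he, ← Function.iterate_add, ← e2]
  choose m l hl hml using h1
  cases nonempty_fintype (Q → Q)
  refine ⟨(∏ f, l f) * (∑ f, m f + 1), ?_, ?_⟩
  · have : 0 < ∏ f, l f := Finset.prod_pos fun f _ => hl f
    exact Nat.mul_pos this (Nat.succ_pos _)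
  · intro f s hs
    set D := (∏ f, l f) * (∑ f, m f + 1) with hD
    have hD1 : ∑ f, m f + 1 ≤ D := by
      have : 0 < ∏ f, l f := Finset.prod_pos fun f _ => hl f
      exact Nat.le_mul_of_pos_left _ this
    have hmf : m f ≤ ∑ f, m f := Finset.single_le_sum (fun _ _ => Nat.zero_le _) (Finset.mem_univ f)
    have hlD : l f ∣ D := Dvd.dvd.mul_right (Finset.dvd_prod_of_mem _ (Finset.mem_univ f)) _
    have hk : ∀ k n, m f ≤ n → f^[n + k * l f] = f^[n] := by
      intro k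
      induction k with
      | zero => intro n _; simp
      | succ k ih =>
        intro n hn
        rw [Nat.succ_mul, ← add_assoc, hml f _ (by omega), ih n hn]
    obtain ⟨c, hc⟩ := hs
    obtain ⟨e, he⟩ := hlD
    have hc0 : c ≠ 0 := by rintro rfl; omega
    obtain ⟨c', rfl⟩ : ∃ c', c = c' + 1 := ⟨c - 1, by omega⟩
    have hs' : s = (D - 1) + (e * c') * l f := by
      have : D * (c' + 1) = D + (e * c') * l f := by
        rw [mul_add, mul_one]
        conv_lhs => rw [he]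
        rw [he]; ring
      omega
    rw [hs']
    exact hk _ _ (by omega)

section

variable (b : ℕ) (C CI : ℕ → ℕ → ℕ → Q → Q) (p : ℕ → ℕ) (h hI E Z : Q → Q) (D : ℕ) (q₀ : Q)

/-- The outer transformation of a whole group. -/
def be (q : Q) : Q := (al CI hI)^[D - 1] (CI 0 1 1 q)

/-- The outer invariant. -/
def OGV (V : Finset ℕ) (X m : ℕ) : Prop :=
  C 0 (pos p V + 1) X q₀ = (fun q => be CI hI D (h q))^[m] (be CI hI D (E q₀))

/-- Both invariants. -/
def GG (M X s m : ℕ) : Prop :=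
  ∃ V, V ⊆ range M ∧ V.Nonempty ∧ IGV b CI p hI Z V X s ∧ OGV C CI p h hI E D q₀ V X m

variable {b C CI p h hI E Z D q₀}

theorem GG.inn {M X s m : ℕ} (g : GG b C CI p h hI E Z D q₀ M X s m) : IN b CI p hI Z M X s := by
  obtain ⟨V, h1, h2, h3, _⟩ := g
  exact ⟨V, h1, h2, h3⟩

theorem GG.mono {M N X s m : ℕ} (g : GG b C CI p h hI E Z D q₀ M X s m) (hMN : M ≤ N) :
    GG b C CI p h hI E Z D q₀ N X s m := by
  obtain ⟨V, h1, h2⟩ := g
  exact ⟨V, sub_mono h1 hMN, h2⟩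

theorem IN.mono {M N X s : ℕ} (g : IN b CI p hI Z M X s) (hMN : M ≤ N) :
    IN b CI p hI Z N X s := by
  obtain ⟨V, h1, h2⟩ := g
  exact ⟨V, sub_mono h1 hMN, h2⟩

theorem IG.mono {M N X s : ℕ} (g : IG b CI p hI Z M X s) (hMN : M ≤ N) :
    IG b CI p hI Z N X s := by
  obtain ⟨V, h1, h2⟩ := g
  exact ⟨V, sub_mono h1 hMN, h2⟩

variable (S : Sys b C CI p h hI E Z) (hb : 2 ≤ b)
  (hD : ∀ (f : Q → Q) (s : ℕ), D ∣ s + 1 → f^[s] = f^[D - 1])

include S hb

theorem IN.of_first {M N Y s : ℕ} (hY : IG b CI p hI Z M Y s) (hMN : M ≤ N) :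
    IN b CI p hI Z (N + 1) (b ^ p N * Y) s := by
  obtain ⟨V, h1, h2⟩ := hY
  exact ⟨insert N V, insert_sub (sub_mono h1 hMN), Finset.insert_nonempty _ _,
    IGV.first S hb (sub_mono h1 hMN) h2⟩

theorem IN.add_group {M M' N X Y s s' : ℕ} (hX : IN b CI p hI Z M X s)
    (hY : IG b CI p hI Z M' Y s') (hMN : M ≤ N) (hMN' : M' ≤ N) :
    IN b CI p hI Z (N + 1) (X + b ^ p N * Y) (s + s' + 1) := by
  obtain ⟨V, h1, hne, h2⟩ := hX
  obtain ⟨V', h1', h2'⟩ := hY
  exact ⟨insert N V', insert_sub (sub_mono h1' hMN'), Finset.insert_nonempty _ _,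
    IGV.add S hb (sub_mono h1 hMN) hne h2 (sub_mono h1' hMN') h2'⟩

/-- Adding `k` groups. -/
theorem IN.sum_groups {M N Y s : ℕ} (hY : IG b CI p hI Z M Y s) (hMN : M ≤ N) (k : ℕ) :
    IN b CI p hI Z (N + k + 1) (∑ i ∈ range (k + 1), b ^ p (N + i) * Y) (s + k * (s + 1)) := by
  induction k with
  | zero => simpa using IN.of_first S hb hY hMN
  | succ k ih =>
    rw [Finset.sum_range_succ]
    have := IN.add_group S hb ih hY (le_refl (N + k + 1)) (by omega)
    have e : s + (k + 1) * (s + 1) = s + k * (s + 1) + s + 1 := by ring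
    rw [e]
    exact this

include hD

omit hb in
theorem read_group {V : Finset ℕ} {N Y s : ℕ} (hV : V ⊆ range N) (hY : IGV b CI p hI Z V Y s)
    (hs : D ∣ s + 1) {q : Q} (hq : Z q = q) :
    C (p N) (pos p V + 1) Y q = be CI hI D q := by
  obtain ⟨h1, h2, h3⟩ := hY
  have e := h3 q
  rw [hq, hD _ _ hs] at e
  rw [S.loc N V hV Y h2, e]
  rfl

theorem GG.of_first {M N Y s : ℕ} (hY : IG b CI p hI Z M Y s) (hMN : M ≤ N) (hs : D ∣ s + 1) :
    GG b C CI p h hI E Z D q₀ (N + 1) (b ^ p N * Y) s 0 := by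
  obtain ⟨V, h1, h2⟩ := hY
  have hb0 : 0 < b := by omega
  refine ⟨insert N V, insert_sub (sub_mono h1 hMN), Finset.insert_nonempty _ _,
    IGV.first S hb (sub_mono h1 hMN) h2, ?_⟩
  unfold OGV
  rw [pos_insert p (sub_mono h1 hMN), add_assoc, S.rC.shift hb0, S.ini,
    read_group S hD (sub_mono h1 hMN) h2 hs (S.ZE _)]
  rfl

theorem GG.add_group {M M' N X Y s s' m : ℕ} (hX : GG b C CI p h hI E Z D q₀ M X s m)
    (hY : IG b CI p hI Z M' Y s') (hMN : M ≤ N) (hMN' : M' ≤ N) (hs : D ∣ s' + 1) :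
    GG b C CI p h hI E Z D q₀ (N + 1) (X + b ^ p N * Y) (s + s' + 1) (m + 1) := by
  obtain ⟨V, h1, hne, h2, h3⟩ := hX
  obtain ⟨V', h1', h2'⟩ := hY
  have hb0 : 0 < b := by omega
  refine ⟨insert N V', insert_sub (sub_mono h1' hMN'), Finset.insert_nonempty _ _,
    IGV.add S hb (sub_mono h1 hMN) hne h2 (sub_mono h1' hMN') h2', ?_⟩
  unfold OGV at h3 ⊢
  have hlp : pos p V + 1 ≤ p N := S.big N V (sub_mono h1 hMN)
  rw [pos_insert p (sub_mono h1' hMN'), add_assoc, S.rC.comb hb0 hlp _ h2.2.1,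
    S.gap N V (sub_mono h1 hMN) hne, h3,
    read_group S hD (sub_mono h1' hMN') h2' hs (S.Zh _), Function.iterate_succ_apply']

theorem GG.sum_groups {M N Y s : ℕ} (hY : IG b CI p hI Z M Y s) (hMN : M ≤ N) (hs : D ∣ s + 1)
    (k : ℕ) :
    GG b C CI p h hI E Z D q₀ (N + k + 1) (∑ i ∈ range (k + 1), b ^ p (N + i) * Y)
      (s + k * (s + 1)) k := by
  induction k with
  | zero => simpa using GG.of_first S hb hD hY hMN hs
  | succ k ih =>
    rw [Finset.sum_range_succ]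
    have := GG.add_group S hb hD ih hY (le_refl (N + k + 1)) (by omega) hs
    have e : s + (k + 1) * (s + 1) = s + k * (s + 1) + s + 1 := by ring
    rw [e]
    exact this

theorem GG.add_sum_groups {M M' N X Y s s' m : ℕ} (hX : GG b C CI p h hI E Z D q₀ M X s m)
    (hY : IG b CI p hI Z M' Y s') (hMN : M ≤ N) (hMN' : M' ≤ N) (hs : D ∣ s' + 1) (k : ℕ) :
    GG b C CI p h hI E Z D q₀ (N + k) (X + ∑ i ∈ range k, b ^ p (N + i) * Y)
      (s + k * (s' + 1)) (m + k) := by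
  induction k with
  | zero => simpa using hX.mono hMN
  | succ k ih =>
    rw [Finset.sum_range_succ, ← add_assoc X]
    have := GG.add_group S hb hD ih hY (le_refl (N + k)) (by omega) hs
    have e : s + (k + 1) * (s' + 1) = s + k * (s' + 1) + s' + 1 := by ring
    rw [e]
    exact this

end

end Pool.Agent.Y309.SP
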