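import Pool.Agent.Y309.SP.C

/-!
# The infinite system of sums of products
-/

namespace Pool.Agent.Y309.SP

open Filter Finset

variable {Q : Type*}

/-- The sum of the products attached to the members of a family. -/
def val (x : ℕ → ℕ) (F : Finset (Finset ℕ)) : ℕ := ∑ A ∈ F, ∏ n ∈ A, x n

/-- No member of the family is a terminal part of another one. -/
def TF (F : Finset (Finset ℕ)) : Prop :=
  ∀ A ∈ F, ∀ B ∈ F, A ⊂ B → ∃ i ∈ B \ A, ∃ j ∈ A, j < i

def xs (b : ℕ) (p : ℕ → ℕ) (D n : ℕ) : ℕ :=
  (∑ i ∈ range D, b ^ p (2 * D * n + i)) * (∑ j ∈ range D, b ^ p (2 * D * n + D + j))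

theorem val_split (x : ℕ → ℕ) (F : Finset (Finset ℕ)) (n : ℕ) :
    val x F = val x (F.filter (fun A => n ∉ A)) +
      x n * val x ((F.filter (fun A => n ∈ A)).image (fun A => A.erase n)) := by
  unfold val
  rw [Finset.sum_image, Finset.mul_sum, add_comm,
    ← Finset.sum_filter_add_sum_filter_not F (fun A => n ∈ A)]
  · congr 1
    refine Finset.sum_congr rfl fun A hA => ?_
    rw [Finset.mul_prod_erase _ _ (Finset.mem_filter.1 hA).2]
  · intro A hA B hB hAB
    have h1 := Finset.insert_erase (Finset.mem_filter.1 hA).2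
    have h2 := Finset.insert_erase (Finset.mem_filter.1 hB).2
    simp only at hAB
    rw [← h1, ← h2, hAB]

theorem val_empty (x : ℕ → ℕ) : val x ∅ = 0 := rfl

theorem sub_of_not_mem {n : ℕ} {A : Finset ℕ} (h : A ⊆ range (n + 1)) (hn : n ∉ A) :
    A ⊆ range n := by
  intro x hx
  have h1 := h hx
  have h2 : x ≠ n := fun h => hn (h ▸ hx)
  simp only [Finset.mem_range] at h1 ⊢
  omega

variable {b : ℕ} {CI : ℕ → ℕ → ℕ → Q → Q} {p : ℕ → ℕ} {hI Z : Q → Q}
  {C : ℕ → ℕ → ℕ → Q → Q} {h E : Q → Q} {D : ℕ} {q₀ : Q}

theorem main_ind (S : Sys b C CI p h hI E Z) (hb : 2 ≤ b)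
    (hD : ∀ (f : Q → Q) (s : ℕ), D ∣ s + 1 → f^[s] = f^[D - 1]) (hD1 : 1 ≤ D) :
    ∀ (n : ℕ) (F : Finset (Finset ℕ)), (∀ A ∈ F, A ⊆ range n) → F.Nonempty → ∅ ∉ F → TF F →
      ∃ s m, GG b C CI p h hI E Z D q₀ (2 * D * n) (val (xs b p D) F) s m ∧
        D ∣ s + 1 ∧ D ∣ m + 1 := by
  intro n
  induction n with
  | zero =>
    intro F hF hne h0 _
    obtain ⟨A, hA⟩ := hne
    have : A = ∅ := by simpa using hF A hA
    exact absurd (this ▸ hA) h0
  | succ n ih =>
    intro F hF hne h0 htf
    have hM : 2 * D * n ≤ 2 * D * (n + 1) := by rw [mul_add]; omega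
    set F0 := F.filter (fun A => n ∉ A) with hF0
    set F1 := (F.filter (fun A => n ∈ A)).image (fun A => A.erase n) with hF1
    have hv := val_split (xs b p D) F n
    rw [← hF0, ← hF1] at hv
    have h0s : ∀ A ∈ F0, A ⊆ range n := fun A hA =>
      sub_of_not_mem (hF A (Finset.mem_filter.1 hA).1) (Finset.mem_filter.1 hA).2
    have h0e : ∅ ∉ F0 := fun hA => h0 (Finset.mem_filter.1 hA).1
    have h0t : TF F0 := fun A hA B hB hAB =>
      htf A (Finset.mem_filter.1 hA).1 B (Finset.mem_filter.1 hB).1 hAB
    have h1m : ∀ A ∈ F1, A ⊆ range n ∧ insert n A ∈ F := by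
      intro A hA
      obtain ⟨B, hB, rfl⟩ := Finset.mem_image.1 hA
      obtain ⟨hB1, hB2⟩ := Finset.mem_filter.1 hB
      refine ⟨sub_of_not_mem ((Finset.erase_subset _ _).trans (hF B hB1)) (by simp), ?_⟩
      rw [Finset.insert_erase hB2]
      exact hB1
    by_cases h1 : F1 = ∅
    · rw [h1, val_empty, mul_zero, add_zero] at hv
      have hF0' : F0.Nonempty := by
        obtain ⟨A, hA⟩ := hne
        refine ⟨A, Finset.mem_filter.2 ⟨hA, fun hn => ?_⟩⟩
        have : A.erase n ∈ F1 := Finset.mem_image.2 ⟨A, Finset.mem_filter.2 ⟨hA, hn⟩, rfl⟩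
        rw [h1] at this
        simp at this
      obtain ⟨s, m, hg, hs, hm⟩ := ih F0 h0s hF0' h0e h0t
      rw [hv]
      exact ⟨s, m, hg.mono hM, hs, hm⟩
    · have h1ne : F1.Nonempty := Finset.nonempty_iff_ne_empty.2 h1
      -- the inner factor
      have hg : ∃ s, IG b CI p hI Z (2 * D * n) (val (xs b p D) F1) s := by
        by_cases he : ∅ ∈ F1
        · have hF1' : F1 = {∅} := by
            refine Finset.eq_singleton_iff_unique_mem.2 ⟨he, fun B hB => ?_⟩
            by_contra hBne
            obtain ⟨hB1, hB2⟩ := h1m B hB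
            obtain ⟨_, hn⟩ := h1m ∅ he
            have hsub : insert n (∅ : Finset ℕ) ⊂ insert n B := by
              obtain ⟨x, hx⟩ := Finset.nonempty_iff_ne_empty.2 hBne
              refine Finset.ssubset_iff_subset_ne.2 ⟨Finset.insert_subset_insert _
                (Finset.empty_subset _), fun heq => ?_⟩
              have : x ∈ insert n (∅ : Finset ℕ) := heq ▸ Finset.mem_insert_of_mem hx
              have h3 := hB1 hx
              simp only [insert_empty_eq, Finset.mem_singleton] at this
              simp [this] at h3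
            obtain ⟨i, hi, j, hj, hji⟩ := htf _ hn _ hB2 hsub
            simp only [insert_empty_eq, Finset.mem_singleton] at hj
            subst hj
            rw [Finset.mem_sdiff, Finset.mem_insert] at hi
            rcases hi.1 with rfl | hi1
            · exact absurd hji (lt_irrefl _)
            · have := hB1 hi1
              simp only [Finset.mem_range] at this
              omega
          refine ⟨0, ∅, Finset.empty_subset _, ?_⟩
          have e1 : val (xs b p D) F1 = 1 := by
            rw [hF1']; simp [val]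
          rw [e1]
          refine ⟨?_, ?_, fun q => ?_⟩
          · simp [pos]
          · simpa [pos] using (show 1 < b by omega)
          · rfl
        · obtain ⟨s, m, hg, _⟩ := ih F1 (fun A hA => (h1m A hA).1) h1ne he (by
            intro A hA B hB hAB
            obtain ⟨hA1, hA2⟩ := h1m A hA
            obtain ⟨hB1, hB2⟩ := h1m B hB
            have hnB : n ∉ B := fun hn => by simpa using hB1 hn
            have hsub : insert n A ⊂ insert n B := by
              refine Finset.ssubset_iff_subset_ne.2 ⟨Finset.insert_subset_insert _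
                hAB.1, fun heq => ?_⟩
              obtain ⟨x, hx, hxA⟩ := Finset.exists_of_ssubset hAB
              have : x ∈ insert n A := heq ▸ Finset.mem_insert_of_mem hx
              rcases Finset.mem_insert.1 this with rfl | hx'
              · exact hnB hx
              · exact hxA hx'
            obtain ⟨i, hi, j, hj, hji⟩ := htf _ hA2 _ hB2 hsub
            rw [Finset.mem_sdiff, Finset.mem_insert, Finset.mem_insert, not_or] at hi
            rcases hi.1 with rfl | hi1
            · exact absurd rfl hi.2.1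
            · have hin := hB1 hi1
              simp only [Finset.mem_range] at hin
              refine ⟨i, Finset.mem_sdiff.2 ⟨hi1, hi.2.2⟩, j, ?_, hji⟩
              rcases Finset.mem_insert.1 hj with rfl | hj1
              · omega
              · exact hj1)
          exact ⟨s, hg.inn.ig⟩
      obtain ⟨s, hg⟩ := hg
      set g := val (xs b p D) F1 with hgdef
      obtain ⟨k, rfl⟩ : ∃ k, D = k + 1 := ⟨D - 1, by omega⟩
      have hY := IN.sum_groups S hb hg le_rfl k
      rw [← Finset.sum_mul] at hY
      set Y := (∑ i ∈ range (k + 1), b ^ p (2 * (k + 1) * n + i)) * g with hYdef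
      have hsY : (k + 1) ∣ s + k * (s + 1) + 1 := ⟨s + 1, by ring⟩
      have hx : xs b p (k + 1) n * g =
          ∑ j ∈ range (k + 1), b ^ p (2 * (k + 1) * n + (k + 1) + j) * Y := by
        rw [← Finset.sum_mul, hYdef]
        unfold xs
        ring
      have hM2 : 2 * (k + 1) * (n + 1) = 2 * (k + 1) * n + 2 * (k + 1) := by ring
      rw [hv, hx]
      by_cases hF0' : F0 = ∅
      · rw [hF0', val_empty, zero_add]
        have hG := GG.sum_groups S hb hD hY.ig
          (show 2 * (k + 1) * n + k + 1 ≤ 2 * (k + 1) * n + (k + 1) by omega) hsY k (q₀ := q₀)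
        refine ⟨_, _, hG.mono (by rw [hM2]; omega), ?_, dvd_refl _⟩
        exact ⟨s + k * (s + 1) + 1, by ring⟩
      · obtain ⟨s', m', hg', hs', hm'⟩ := ih F0 h0s (Finset.nonempty_iff_ne_empty.2 hF0') h0e h0t
        have hG := GG.add_sum_groups S hb hD hg' hY.ig
          (show 2 * (k + 1) * n ≤ 2 * (k + 1) * n + (k + 1) by omega)
          (show 2 * (k + 1) * n + k + 1 ≤ 2 * (k + 1) * n + (k + 1) by omega) hsY (k + 1)
        refine ⟨_, _, hG.mono (by rw [hM2]; omega), ?_, ?_⟩
        · have : s' + (k + 1) * (s + k * (s + 1) + 1) + 1 =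
              (s' + 1) + (k + 1) * (s + k * (s + 1) + 1) := by ring
          rw [this]
          exact Dvd.dvd.add hs' (Dvd.intro _ rfl)
        · have : m' + (k + 1) + 1 = (m' + 1) + (k + 1) := by ring
          rw [this]
          exact Dvd.dvd.add hm' dvd_rfl

end Pool.Agent.Y309.SP
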