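import Pool.Agent.Y309.SP.D
import Mathlib.Data.Nat.Log
import Mathlib.Order.Monotone.Basic

/-!
# Colourings all of whose levels are bounded
-/

namespace Pool.Agent.Y309.SP

open Filter Finset

/-- The functions `n ↦ c (b ^ j * n + r)` of `n ≥ 1` (written with `n + 1` in place of `n`), for
`0 ≤ r < b ^ j`. -/
def level (b : ℕ) {κ : Type} (c : ℕ → κ) (j : ℕ) : Set (ℕ → κ) :=
  {f | ∃ r, r < b ^ j ∧ f = fun n => c (b ^ j * (n + 1) + r)}

/-- There are at most `w` different functions `n ↦ c (b ^ j * n + r)` for each `j`, with `w`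
independent of `j`. -/
def LevelBounded (b : ℕ) {κ : Type} (c : ℕ → κ) : Prop :=
  ∃ w : ℕ, ∀ j, (level b c j).ncard ≤ w

theorem level_finite (b : ℕ) {κ : Type} (c : ℕ → κ) (j : ℕ) : (level b c j).Finite := by
  have : level b c j = (fun r => fun n => c (b ^ j * (n + 1) + r)) '' (Set.Iio (b ^ j)) := by
    ext f
    constructor
    · rintro ⟨r, hr, rfl⟩
      exact ⟨r, hr, rfl⟩
    · rintro ⟨r, hr, rfl⟩
      exact ⟨r, hr, rfl⟩
  rw [this]
  exact (Set.finite_Iio _).image _

theorem cover {α : Type*} (S : Set α) (hS : S.Finite) (a₀ : α) (w : ℕ) (hw : S.ncard ≤ w) :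
    ∃ g : Fin w → α, ∀ a ∈ S, ∃ k, g k = a := by
  classical
  refine ⟨fun k => hS.toFinset.toList.getD k a₀, fun a ha => ?_⟩
  have h1 : a ∈ hS.toFinset.toList := by simpa using ha
  obtain ⟨n, hn⟩ := List.mem_iff_get.1 h1
  have hlen : hS.toFinset.toList.length ≤ w := by
    rw [Finset.length_toList, ← Set.ncard_eq_toFinset_card S hS]
    exact hw
  refine ⟨⟨n, lt_of_lt_of_le n.2 hlen⟩, ?_⟩
  rw [← hn]
  simp only [List.getD_eq_getElem?_getD, List.get_eq_getElem]
  rw [List.getElem?_eq_getElem n.2]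
  rfl

/-- The colouring is computed by a program reading the digits from the lowest one up. -/
theorem exists_program {b : ℕ} (hb : 2 ≤ b) {κ : Type} {c : ℕ → κ} (hc : LevelBounded b c) :
    ∃ (w : ℕ) (s : ℕ → Fin w × κ → ℕ → Fin w × κ) (q₀ : Fin w × κ),
      ∀ N L, b ^ L ≤ N → N < b ^ (L + 1) → (rd b s 0 (L + 1) N q₀).2 = c N := by
  classical
  obtain ⟨w, hw⟩ := hc
  let φ : ℕ → ℕ → ℕ → κ := fun j r n => c (b ^ j * (n + 1) + r)
  have hφ : ∀ j r, r < b ^ j → φ j r ∈ level b c j := fun j r hr => ⟨r, hr, rfl⟩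
  have hcov := fun j => cover (level b c j) (level_finite b c j) (φ j 0) w (hw j)
  choose g hg using hcov
  obtain ⟨k₀, hk₀⟩ := hg 0 (φ 0 0) (hφ 0 0 (by simp))
  let e : ℕ → (ℕ → κ) → Fin w := fun j f => if h : ∃ k, g j k = f then h.choose else k₀
  have he : ∀ j f, f ∈ level b c j → g j (e j f) = f := by
    intro j f hf
    have hex := hg j f hf
    simp only [e, dif_pos hex]
    exact hex.choose_spec
  let s : ℕ → Fin w × κ → ℕ → Fin w × κ := fun j q d =>
    (e (j + 1) (fun n => g j q.1 (b * (n + 1) + d - 1)), g j q.1 (d - 1))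
  refine ⟨w, s, (k₀, c 0), ?_⟩
  have key : ∀ N j, g j (rd b s 0 j N (k₀, c 0)).1 = φ j (N % b ^ j) := by
    intro N j
    induction j with
    | zero =>
      change g 0 k₀ = _
      rw [hk₀]; simp [Nat.mod_one]
    | succ j ih =>
      change g (j + 1) (s (0 + j) (rd b s 0 j N (k₀, c 0)) (N / b ^ j % b)).1 = _
      have h1 : (fun n => g j (rd b s 0 j N (k₀, c 0)).1 (b * (n + 1) + N / b ^ j % b - 1)) =
          φ (j + 1) (N % b ^ (j + 1)) := by
        funext n
        rw [ih, Nat.mod_pow_succ]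
        simp only [φ]
        congr 1
        have h2 : b * (n + 1) + N / b ^ j % b - 1 + 1 = b * (n + 1) + N / b ^ j % b := by
          have : 0 < b * (n + 1) := Nat.mul_pos (by omega) (Nat.succ_pos _)
          omega
        rw [h2, pow_succ]
        ring
      simp only [s, zero_add]
      rw [h1]
      exact he _ _ (hφ _ _ (Nat.mod_lt _ (pow_pos (by omega) _)))
  intro N L h1 h2
  change (s (0 + L) (rd b s 0 L N (k₀, c 0)) (N / b ^ L % b)).2 = _
  have hd : N / b ^ L % b = N / b ^ L := by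
    apply Nat.mod_eq_of_lt
    rw [Nat.div_lt_iff_lt_mul (pow_pos (by omega) _)]
    rwa [pow_succ, mul_comm] at h2
  have hd1 : 1 ≤ N / b ^ L := by
    rw [Nat.le_div_iff_mul_le (pow_pos (by omega) _)]
    omega
  simp only [s, zero_add]
  rw [key, hd]
  simp only [φ]
  congr 1
  rw [show N / b ^ L - 1 + 1 = N / b ^ L by omega]
  exact Nat.div_add_mod N (b ^ L)

theorem main {b : ℕ} (hb : 2 ≤ b) {κ : Type} [Finite κ] {c : ℕ → κ} (hc : LevelBounded b c) :
    ∃ x : ℕ → ℕ, StrictMono x ∧ (∀ n, 1 ≤ x n) ∧ ∃ i : κ,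
      ∀ F : Finset (Finset ℕ), F.Nonempty → ∅ ∉ F → TF F → c (val x F) = i := by
  obtain ⟨w, s, q₀, hprog⟩ := exists_program hb hc
  obtain ⟨CI, p, h, hI, E, Z, S⟩ := exists_sys hb (rd b s) (reader_rd (by omega) s)
  obtain ⟨D, hD1, hD⟩ := exists_D (Q := Fin w × κ)
  have hb0 : 0 < b := by omega
  have hmain := main_ind S hb hD hD1 (q₀ := q₀)
  have hsing : ∀ n, ∃ V, V ⊆ range (2 * D * (n + 1)) ∧ b ^ pos p V ≤ xs b p D n ∧
      xs b p D n < b ^ (pos p V + 1) := by
    intro n
    obtain ⟨s', m, ⟨V, h1, _, h2, _⟩, _⟩ := hmain (n + 1) {{n}} (by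
      intro A hA
      rw [Finset.mem_singleton] at hA
      subst hA
      simp) (by simp) (by
        simp only [Finset.mem_singleton]
        intro h
        have : n ∈ (∅ : Finset ℕ) := h ▸ Finset.mem_singleton_self n
        simp at this) (by
      intro A hA B hB hAB
      rw [Finset.mem_singleton] at hA hB
      subst hA hB
      exact absurd hAB (lt_irrefl _))
    have hv : val (xs b p D) {{n}} = xs b p D n := by simp [val]
    rw [hv] at h2
    exact ⟨V, h1, h2.1, h2.2.1⟩
  refine ⟨xs b p D, ?_, ?_, ((fun q => be CI hI D (h q))^[D - 1] (be CI hI D (E q₀))).2, ?_⟩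
  · refine strictMono_nat_of_lt_succ fun n => ?_
    obtain ⟨V, h1, _, h3⟩ := hsing n
    refine h3.trans_le ((Nat.pow_le_pow_right hb0 (S.big _ V h1)).trans ?_)
    unfold xs
    have e1 : b ^ p (2 * D * (n + 1)) ≤ ∑ i ∈ range D, b ^ p (2 * D * (n + 1) + i) := by
      have := Finset.single_le_sum (f := fun i => b ^ p (2 * D * (n + 1) + i))
        (s := range D) (fun _ _ => Nat.zero_le _) (Finset.mem_range.2 (show 0 < D by omega))
      simpa using this
    have e2 : 1 ≤ ∑ j ∈ range D, b ^ p (2 * D * (n + 1) + D + j) := by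
      have := Finset.single_le_sum (f := fun i => b ^ p (2 * D * (n + 1) + D + i))
        (s := range D) (fun _ _ => Nat.zero_le _) (Finset.mem_range.2 (show 0 < D by omega))
      exact (pow_pos hb0 _ : 0 < b ^ p (2 * D * (n + 1) + D + 0)).trans_le this
    exact e1.trans (Nat.le_mul_of_pos_right _ e2)
  · intro n
    obtain ⟨V, _, h2, _⟩ := hsing n
    exact (pow_pos hb0 _ : 0 < b ^ pos p V).trans_le h2
  · intro F hF h0 htf
    have hbd : ∀ A ∈ F, A ⊆ range ((F.sup id).sup id + 1) := by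
      intro A hA x hx
      have h1 : x ∈ F.sup id := Finset.mem_sup.2 ⟨A, hA, hx⟩
      have h2 : id x ≤ (F.sup id).sup id := Finset.le_sup h1
      simp only [id, Finset.mem_range] at h2 ⊢
      omega
    obtain ⟨s', m, ⟨V, h1, _, h2, h3⟩, _, hm⟩ := hmain _ F hbd hF h0 htf
    have h4 := hprog _ _ h2.1 h2.2.1
    unfold OGV at h3
    rw [← h4, h3, hD _ m hm]

end Pool.Agent.Y309.SP
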